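import Mathlib

/-!
# Fuzzy implications with contrapositive symmetry only

Q1 of MP_e504dd_lc asks for a fuzzy implication `I` and a fuzzy negation `N` such that `I`
satisfies (CP), but neither (L-CP) nor (R-CP), with respect to `N`.  Such pairs exist: take for
`I` the crisp implication `I(x,y) = 1` if `x ≤ y` and `I(x,y) = 0` otherwise, and for `N` any
strictly decreasing negation which is not an involution, for instance `N(x) = 1 - x^2`.
-/

namespace Pool.Agent.Results.MP_e504dd_lc.OnlyCP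

open Set

/-- A fuzzy negation: a non-increasing self-map of `[0,1]` with `N 0 = 1` and `N 1 = 0`. -/
structure IsNegation (N : Icc (0 : ℝ) 1 → Icc (0 : ℝ) 1) : Prop where
  anti : Antitone N
  zero : N 0 = 1
  one : N 1 = 0

/-- A fuzzy implication on `[0,1]`. -/
structure IsImplication (I : Icc (0 : ℝ) 1 → Icc (0 : ℝ) 1 → Icc (0 : ℝ) 1) : Prop where
  anti_left : ∀ y, Antitone fun x => I x y
  mono_right : ∀ x, Monotone (I x)
  zero_zero : I 0 0 = 1
  one_one : I 1 1 = 1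
  one_zero : I 1 0 = 0

/-- (CP): `I(x,y) = I(N(y),N(x))` for all `x`, `y`. -/
def CP (I : Icc (0 : ℝ) 1 → Icc (0 : ℝ) 1 → Icc (0 : ℝ) 1)
    (N : Icc (0 : ℝ) 1 → Icc (0 : ℝ) 1) : Prop := ∀ x y, I x y = I (N y) (N x)

/-- (L-CP): `I(N(x),y) = I(N(y),x)` for all `x`, `y`. -/
def LCP (I : Icc (0 : ℝ) 1 → Icc (0 : ℝ) 1 → Icc (0 : ℝ) 1)
    (N : Icc (0 : ℝ) 1 → Icc (0 : ℝ) 1) : Prop := ∀ x y, I (N x) y = I (N y) x

/-- (R-CP): `I(x,N(y)) = I(y,N(x))` for all `x`, `y`. -/
def RCP (I : Icc (0 : ℝ) 1 → Icc (0 : ℝ) 1 → Icc (0 : ℝ) 1)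
    (N : Icc (0 : ℝ) 1 → Icc (0 : ℝ) 1) : Prop := ∀ x y, I x (N y) = I y (N x)

open Classical in
/-- The crisp implication: value `1` if `x ≤ y` and `0` otherwise. -/
noncomputable def crisp (x y : Icc (0 : ℝ) 1) : Icc (0 : ℝ) 1 := if x ≤ y then 1 else 0

lemma crisp_eq_iff {a b c d : Icc (0 : ℝ) 1} : crisp a b = crisp c d ↔ (a ≤ b ↔ c ≤ d) := by
  have h01 : (0 : Icc (0 : ℝ) 1) ≠ 1 := by
    intro h
    have := congrArg Subtype.val h
    norm_num at this
  unfold crisp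
  by_cases h1 : a ≤ b <;> by_cases h2 : c ≤ d <;> simp [h1, h2, h01, h01.symm]

lemma crisp_isImplication : IsImplication crisp where
  anti_left y x x' h := by
    unfold crisp
    by_cases h1 : x' ≤ y
    · simp [h1, h.trans h1]
    · simp [h1]
  mono_right x y y' h := by
    unfold crisp
    by_cases h1 : x ≤ y
    · simp [h1, h1.trans h]
    · simp [h1]
  zero_zero := by simp [crisp]
  one_one := by simp [crisp]
  one_zero := by
    have : ¬ ((1 : Icc (0 : ℝ) 1) ≤ 0) := by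
      intro h
      have h' : ((1 : Icc (0 : ℝ) 1) : ℝ) ≤ ((0 : Icc (0 : ℝ) 1) : ℝ) := h
      norm_num at h'
    simp [crisp, this]

/-- The negation `x ↦ 1 - x^2`. -/
noncomputable def neg (x : Icc (0 : ℝ) 1) : Icc (0 : ℝ) 1 :=
  ⟨1 - (x : ℝ) ^ 2, by
    have h0 := x.2.1
    have h1 := x.2.2
    constructor <;> nlinarith⟩

lemma neg_strictAnti : StrictAnti neg := by
  intro x y h
  have h0 := x.2.1
  have h' : (x : ℝ) < y := h
  show (1 - (y : ℝ) ^ 2) < 1 - (x : ℝ) ^ 2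
  nlinarith

lemma neg_isNegation : IsNegation neg where
  anti := neg_strictAnti.antitone
  zero := by apply Subtype.ext; simp [neg]
  one := by apply Subtype.ext; simp [neg]

/-- **Q1 of MP_e504dd_lc, positive answer.**  There are a fuzzy implication `I` and a fuzzy
negation `N` (which may be taken continuous and strictly decreasing) such that `I` satisfies (CP)
but neither (L-CP) nor (R-CP) with respect to `N`. -/
theorem result : ∃ (I : Icc (0 : ℝ) 1 → Icc (0 : ℝ) 1 → Icc (0 : ℝ) 1)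
    (N : Icc (0 : ℝ) 1 → Icc (0 : ℝ) 1),
    IsImplication I ∧ IsNegation N ∧ Continuous N ∧ StrictAnti N ∧
      CP I N ∧ ¬ LCP I N ∧ ¬ RCP I N := by
  refine ⟨crisp, neg, crisp_isImplication, neg_isNegation, ?_, neg_strictAnti, ?_, ?_, ?_⟩
  · unfold neg
    fun_prop
  · intro x y
    rw [crisp_eq_iff]
    exact neg_strictAnti.le_iff_ge.symm
  · intro h
    have := h ⟨1 / 2, by norm_num, by norm_num⟩ ⟨18 / 25, by norm_num, by norm_num⟩
    rw [crisp_eq_iff] at this
    have h2 : neg ⟨18 / 25, by norm_num, by norm_num⟩ ≤ (⟨1 / 2, by norm_num, by norm_num⟩ :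
        Icc (0 : ℝ) 1) := by
      show 1 - (18 / 25 : ℝ) ^ 2 ≤ 1 / 2
      norm_num
    have h3 := this.2 h2
    have h4 : 1 - (1 / 2 : ℝ) ^ 2 ≤ 18 / 25 := h3
    norm_num at h4
  · intro h
    have := h ⟨1 / 2, by norm_num, by norm_num⟩ ⟨18 / 25, by norm_num, by norm_num⟩
    rw [crisp_eq_iff] at this
    have h2 : (⟨18 / 25, by norm_num, by norm_num⟩ : Icc (0 : ℝ) 1) ≤
        neg ⟨1 / 2, by norm_num, by norm_num⟩ := by
      show (18 / 25 : ℝ) ≤ 1 - (1 / 2) ^ 2
      norm_num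
    have h3 := this.2 h2
    have h4 : (1 / 2 : ℝ) ≤ 1 - (18 / 25) ^ 2 := h3
    norm_num at h4

end Pool.Agent.Results.MP_e504dd_lc.OnlyCP
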